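import Pool.Agent.Results.MP_50bb2e_nt.OrderOne
import Pool.Agent.Lib.MP_72b84e_nt.Two.Fin
import Pool.Agent.Lib.MP_72b84e_nt.Two.Exu
import Pool.Agent.Lib.MP_72b84e_nt.Two.Par
import Pool.Agent.Lib.MP_72b84e_nt.Two.Parf
import Pool.Agent.Lib.MP_72b84e_nt.Two.ExuP
import Pool.Agent.Lib.MP_72b84e_nt.Two.Sym
import Pool.Agent.Lib.MP_72b84e_nt.Two.H53.Has

/-!
The order of vanishing `r_2` of the cyclotomic 2-adic `L`-function (Mazur, Tate, Teitelbaum) in
thin families of quadratic twists of elliptic curves which have good ordinary reduction at `2`. The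
2-adic `L`-function of the twist by `(· / D)` is defined in `Two/Defs.lean` (`IsL`), the `p`-adic
one for odd `p` in `Two/AllP.lean` (`IsLp`); the families and the systems of Heegner points are
those of `MP_50bb2e_nt/OrderOne.lean` (`Lots`, `Heegner`).
-/

namespace Pool.Agent.Results.MP_72b84e_nt.TwoAdicOrders

open Pool.Agent.Lib.MP_50bb2e_nt
open Pool.Agent.Results.MP_50bb2e_nt.OrderOne
open Pool.Agent.Lib.MP_72b84e_nt.Two (Lam IsL IsLp IsSym)
open Pool.Agent.Lib.MP_72b84e_nt.Two.H53 (GoodOutside)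

noncomputable section

/-- An elliptic curve with its modular symbols: `ms x` is, for example, a positive integral
multiple, the same for all `x`, of `[x]^+ + [x]^-`, the sum of the two real modular symbols
(normalised by the real and by the imaginary period) of the newform of `E`; `α` is the unit root
of `X^2 - a_2 X + 2`. -/
structure Curve where
  E : WeierstrassCurve ℚ
  /-- the conductor of `E` -/
  N : ℕ
  /-- the root number of `E` -/
  w : ℤ
  ms : ℚ → ℤ
  α : ℤ_[2]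

/-- `E` has good reduction at the primes which do not divide `N`, and ordinary reduction at `2`;
`ms x = Re I(x) / Ω + Im I(x) / Ω'` with the integrals `I(x)` of the `q`-series with the
coefficients `a_n` of `L(E, s)` (`IsSym`). -/
structure Curve.Ok (x : Curve) : Prop where
  good : GoodOutside x.E x.N
  two : ¬ 2 ∣ x.N ∧ Odd (x.E.LFunction 2)
  root : IsUnit x.α ∧ x.α ^ 2 - (x.E.LFunction 2 : ℤ_[2]) * x.α + 2 = 0
  sym : IsSym (fun n => x.E.LFunction n) x.ms

/-- A good prime: odd, not dividing `N`, with `a_p` odd. -/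
def Curve.Good (x : Curve) (p : ℕ) : Prop :=
  p.Prime ∧ p ≠ 2 ∧ ¬ p ∣ x.N ∧ Odd (x.E.LFunction p)

/-- The 2-adic `L`-function of the twist of `E` by `(· / D)` has order `k` at `T = 0`. (The series
`L` is that of Mazur, Tate and Teitelbaum for `E` and the character `(· / D)`; it is the 2-adic
`L`-function of the twist times a constant, which is not `0`, and a power of `1 + T`.) -/
def Curve.Ord2 (x : Curve) (D k : ℕ) : Prop :=
  ∃ L : Lam, IsL x.ms x.α D L ∧ L.order = (k : ℕ)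

/-- Not all coefficients of `T^0, ..., T^r` of the 2-adic `L`-function of `E` are divisible by
`2 ^ (j + 1)`. -/
def Curve.Base (x : Curve) (r j : ℕ) : Prop :=
  ∀ L : Lam, IsL x.ms x.α 1 L → ∃ i ≤ r, ¬ (2 : ℤ_[2]) ^ (j + 1) ∣ PowerSeries.coeff i L

/-- The root number of the twist of `E` by `(· / D)`. -/
def Curve.sign (x : Curve) (D : ℕ) : ℤ := x.w * jacobiSym (-x.N) D

/-- The least order which is allowed by the root number of the twist. -/
def Curve.least (x : Curve) (D : ℕ) : ℕ := if x.sign D = -1 then 1 else 0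

/-- The Atkin-Lehner relation of the modular symbols: the involution `w_N` acts on the newform of
`E` by `-w`. -/
def Curve.AtkinLehner (x : Curve) : Prop :=
  (x.w = 1 ∨ x.w = -1) ∧ ∀ M a b : ℕ, M.Coprime x.N → M ∣ x.N * a * b + 1 →
    x.ms (a / M) = x.w * x.ms (b / M)

/-- `p` is an odd prime at which the twist of `E` by `(· / D)` has good reduction, and `α` is a
unit root of `X^2 - a_p X + p` (it exists if the reduction is ordinary). -/
def Curve.UnitRoot (x : Curve) (D p : ℕ) [Fact p.Prime] (α : ℤ_[p]) : Prop :=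
  p ≠ 2 ∧ ¬ p ∣ x.N * D ∧ IsUnit α ∧ α ^ 2 - (x.E.LFunction p : ℤ_[p]) * α + p = 0

/-- The `p`-adic `L`-function of the twist of `E` by `(· / D)`, for an odd prime `p`, has order `k`
at `T = 0`. -/
def Curve.Ordp (x : Curve) (D p : ℕ) [Fact p.Prime] (α : ℤ_[p]) (k : ℕ) : Prop :=
  ∃ L : PowerSeries ℤ_[p], IsLp p x.ms α D L ∧ L.order = (k : ℕ)

/-- The group of the rational points of the twist of `E` by `(· / D)`: the points of `E` on which
an automorphism acts by the sign with which it acts on the square roots of `D* = (-1)^((D-1)/2) D`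
(`star D`). -/
def twist (E : WeierstrassCurve ℚ) (D : ℕ) : AddSubgroup (Pt E Qb) where
  carrier := {Q | ∀ ρ : Qb, ρ ^ 2 = (star D : Qb) → ∀ g : Qb ≃ₐ[ℚ] Qb,
    (g ρ = ρ → act E g Q = Q) ∧ (g ρ = -ρ → act E g Q = -Q)}
  zero_mem' := fun _ _ g => ⟨fun _ => map_zero _, fun _ => by rw [map_zero, neg_zero]⟩
  add_mem' := by
    intro a b ha hb ρ hρ g
    refine ⟨fun h => ?_, fun h => ?_⟩
    · rw [map_add, (ha ρ hρ g).1 h, (hb ρ hρ g).1 h]
    · rw [map_add, (ha ρ hρ g).2 h, (hb ρ hρ g).2 h, neg_add]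
  neg_mem' := by
    intro a ha ρ hρ g
    refine ⟨fun h => ?_, fun h => ?_⟩
    · rw [map_neg, (ha ρ hρ g).1 h]
    · rw [map_neg, (ha ρ hρ g).2 h]

/-- Kato's theorem at `2`: the rank of a twist is at most the order of its 2-adic `L`-function. -/
def Curve.Kato (x : Curve) : Prop :=
  ∀ D : ℕ, Squarefree D → (∀ p ∈ D.primeFactors, x.Good p) → ∀ k, x.Ord2 D k →
    Module.finrank ℤ (twist x.E D) ≤ k

/-- The theorem of Gross, Zagier and Kolyvagin: if the twist by `(· / D)` has analytic order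
`k ≤ 1`, then its rank is `k`. -/
def Kolyvagin (y : Heegner) : Prop :=
  ∀ D : ℕ, Squarefree D → (∀ p ∈ D.primeFactors, y.Good p) → ∀ k ≤ 1, y.OrdE D k →
    Module.finrank ℤ (twist y.E D) = k

/-- from a Lipschitz system to proportions -/
theorem lots_of_lip {v : AbsoluteValue ℂ ℝ} (hv : Qtw.Dyadic v) {A : Set ℕ}
    (hA : ∀ p ∈ A, p.Prime) {ℓ : Finset ℕ → ℝ} {J : ℕ} (hb : v 2 ^ J ≤ ℓ ∅)
    (hlip : Low.HasLip v A 1 ℓ) {R : ℕ → Prop}
    (hR : ∀ S : Finset ℕ, (S : Set ℕ) ⊆ A → ℓ S ≠ 0 → R (∏ p ∈ S, p)) : Lots A J R := by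
  have hv2 : 0 < v 2 := v.pos two_ne_zero
  have hpos : 0 < ℓ ∅ := (pow_pos hv2 _).trans_le hb
  have hd : v 2 ^ (J + 1) * 1 < ℓ ∅ := by
    rw [mul_one, pow_succ]
    refine lt_of_lt_of_le ?_ hb
    exact mul_lt_of_lt_one_right (pow_pos hv2 _) hv.2
  have h12 := Hgp.parts v hv A hA 1 _ zero_le_one hpos hlip _ hd R hR
  refine ⟨fun h0 => ?_, h12.1, h12.2, Hgp.blk3 hv hA hpos hlip R hR⟩
  rw [h0] at h12
  exact Hgp.all_zero h12.2

theorem least_of {s : ℤ} {k : ℕ} (hk : k ≤ 1) (h : (-1) ^ k = s) :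
    k = if s = -1 then 1 else 0 := by
  have h6 : k = 0 ∨ k = 1 := by omega
  rcases h6 with rfl | rfl
  · rw [← h]
    norm_num
  · rw [← h]
    norm_num

theorem prod_facts {S : Finset ℕ} (hS : ∀ p ∈ S, p.Prime) :
    Squarefree (∏ p ∈ S, p) ∧ (∏ p ∈ S, p).primeFactors = S := by
  classical
  refine ⟨?_, Nat.primeFactors_prod hS⟩
  induction S using Finset.induction_on with
  | empty => simp
  | insert a T ha ih =>
    rw [Finset.prod_insert ha, Nat.squarefree_mul_iff]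
    refine ⟨?_, (hS a (Finset.mem_insert_self _ _)).prime.squarefree,
      ih fun p hp => hS p (Finset.mem_insert_of_mem hp)⟩
    apply Nat.Coprime.prod_right
    intro q hq
    exact (Nat.coprime_primes (hS a (Finset.mem_insert_self _ _))
      (hS q (Finset.mem_insert_of_mem hq))).2 fun h => ha (h ▸ hq)

theorem hecke (x : Curve) (hx : x.Ok) (p : ℕ) (hp : p.Prime) (hn : ¬ p ∣ x.N) :
    Pool.Agent.Lib.MP_72b84e_nt.Two.Hecke x.ms p (x.E.LFunction p) :=
  hx.sym.hecke p hp.pos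
    (Pool.Agent.Lib.MP_72b84e_nt.Two.H53.lfn_rel_out x.E x.N hx.good p hp hn)

/-- the 2-adic `L`-functions exist -/
theorem exist (x : Curve) (hx : x.Ok) (D : ℕ) (hD : Odd D) : ∃! L : Lam, IsL x.ms x.α D L :=
  Pool.Agent.Lib.MP_72b84e_nt.Two.exu hx.sym.period hx.root.1
    (hecke x hx 2 Nat.prime_two hx.two.1) hx.root.2 D hD

/-- the `p`-adic `L`-functions exist -/
theorem existp (x : Curve) (hx : x.Ok) (D : ℕ) (hD : Odd D) (p : ℕ) [Fact p.Prime] (α : ℤ_[p])
    (h : x.UnitRoot D p α) : ∃! L : PowerSeries ℤ_[p], IsLp p x.ms α D L :=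
  Pool.Agent.Lib.MP_72b84e_nt.Two.exup h.1 hx.sym.period h.2.2.1
    (hecke x hx p Fact.out fun hd => h.2.1 (hd.mul_right _)) h.2.2.2 D hD.pos

/-- order zero at `2` gives order zero at the other primes -/
theorem zero_all (x : Curve) (hx : x.Ok) (D : ℕ) (hD : Odd D) (h0 : x.Ord2 D 0) (p : ℕ)
    [Fact p.Prime] (α : ℤ_[p]) (h : x.UnitRoot D p α) : x.Ordp D p α 0 := by
  obtain ⟨L2, hL2, ho⟩ := h0
  have hp : p.Prime := Fact.out
  have hn : ¬ p ∣ x.N := fun hd => h.2.1 (hd.mul_right _)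
  have hpD : ¬ p ∣ D := fun hd => h.2.1 (hd.mul_left _)
  have hS := Pool.Agent.Lib.MP_72b84e_nt.Two.SD_ne hx.sym.period
    (hecke x hx 2 Nat.prime_two hx.two.1) hD hx.root.1 hx.root.2 hL2 (by exact_mod_cast ho)
  obtain ⟨L, hL, -⟩ := existp x hx D hD p α h
  refine ⟨L, hL, ?_⟩
  rw [Nat.cast_zero]
  exact Pool.Agent.Lib.MP_72b84e_nt.Two.order_p hx.sym.period (hecke x hx p hp hn) hD.pos hpD
    h.2.2.2 (Pool.Agent.Lib.MP_72b84e_nt.Two.H53.lfn_bound x.E x.N hx.good p hp hn) hS hL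

/-- the parity of the orders of the 2-adic `L`-functions -/
theorem parity (x : Curve) (hx : x.Ok) (hA : x.AtkinLehner) {D : ℕ} (hsf : Squarefree D)
    (hg : ∀ p ∈ D.primeFactors, x.Good p) {k : ℕ} (hk : x.Ord2 D k) : (-1) ^ k = x.sign D := by
  obtain ⟨L, hL, ho⟩ := hk
  have hodd : Odd D := by
    rw [← Nat.not_even_iff_odd, even_iff_two_dvd]
    intro h2
    exact (hg 2 (Nat.mem_primeFactors.2 ⟨Nat.prime_two, h2, hsf.ne_zero⟩)).2.1 rfl
  have hcop : D.Coprime x.N := by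
    refine Nat.Coprime.symm (Nat.coprime_of_dvd ?_)
    intro p hp h1 h2
    exact (hg p (Nat.mem_primeFactors.2 ⟨hp, h2, hsf.ne_zero⟩)).2.2.1 h1
  exact Pool.Agent.Lib.MP_72b84e_nt.Two.par
    (Pool.Agent.Lib.MP_72b84e_nt.Two.parf Pool.Agent.Lib.MP_72b84e_nt.Two.dlg)
    Pool.Agent.Lib.MP_72b84e_nt.Two.omg x.ms x.α x.N D x.w L k hx.sym.period hx.root.1 hA.1
    hx.two.1 hodd hcop hA.2 hL ho

/-- the system of the 2-adic `L`-functions of one curve -/
theorem sys2 (x : Curve) (hx : x.Ok) (r j : ℕ) (hb : x.Base r j) (A : Set ℕ)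
    (hA : ∀ p ∈ A, x.Good p) {v : AbsoluteValue ℂ ℝ} (hv : Qtw.Dyadic v) :
    ∃ ℓ : Finset ℕ → ℝ, v 2 ^ j ≤ ℓ ∅ ∧ Low.HasLip v A 1 ℓ ∧
      ∀ S : Finset ℕ, (S : Set ℕ) ⊆ A → ℓ S ≠ 0 → ∃ k ≤ r, x.Ord2 (∏ p ∈ S, p) k := by
  have hH := hecke x hx
  obtain ⟨ℓ, h0, h1, h2⟩ := Pool.Agent.Lib.MP_72b84e_nt.Two.one_sys hx.sym.period hx.root.1
    (hH 2 Nat.prime_two hx.two.1) hx.root.2 (aq := fun p => x.E.LFunction p) (P := A)
    (fun p hp => ⟨(hA p hp).1, (hA p hp).2.1, hH p (hA p hp).1 (hA p hp).2.2.1,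
      (hA p hp).2.2.2⟩) r j hb hv
  refine ⟨ℓ, h0, h1, fun S hS hne => ?_⟩
  obtain ⟨L, k, hL, hk, ho⟩ := h2 S hS hne
  exact ⟨k, hk, L, hL, ho⟩

open Classical in
theorem result (ι : Type) [Fintype ι] [Nonempty ι] (x : ι → Curve) (hx : ∀ i, (x i).Ok) :
    -- the 2-adic `L`-functions exist and are unique
    (∀ i D, Odd D → ∃! L : Lam, IsL (x i).ms (x i).α D L) ∧
    -- for the other primes too; order `0` at `2` implies order `0` at all `p`
    (∀ i D, Odd D → ∀ (p : ℕ) [Fact p.Prime] (α : ℤ_[p]), (x i).UnitRoot D p α →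
      (∃! L : PowerSeries ℤ_[p], IsLp p (x i).ms α D L) ∧
        ((x i).Ord2 D 0 → (x i).Ordp D p α 0)) ∧
    -- there is an exponent `j`
    (∀ i r, (x i).Ord2 1 r → ∃ j, (x i).Base r j) ∧
    ∀ r j : ι → ℕ, (∀ i, (x i).Base (r i) (j i)) →
      -- the orders are bounded by those of the curves `E i`, and bound the ranks
      Lots {p | ∀ i, (x i).Good p} (∑ i, j i) (fun D => ∀ i, ∃ k ≤ r i, (x i).Ord2 D k ∧
        ((x i).AtkinLehner → (-1) ^ k = (x i).sign D) ∧
        ((x i).Kato → Module.finrank ℤ (twist (x i).E D) ≤ k)) ∧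
      ((∀ i, r i ≤ 1 ∧ (x i).AtkinLehner) →
        -- the order is the least one
        Lots {p | ∀ i, (x i).Good p} (∑ i, j i) (fun D => ∀ i,
          (x i).Ord2 D ((x i).least D) ∧
            ((x i).Kato → Module.finrank ℤ (twist (x i).E D) ≤ (x i).least D)) ∧
        -- with Heegner points: the 2-adic order, the rank and the analytic order
        ∀ (y : ι → Heegner) (m : ι → ℕ),
          (∀ i, (y i).E = (x i).E ∧ (y i).N = (x i).N ∧ (y i).w = (x i).w ∧ (y i).Norm ∧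
            (∀ Q : Pt (y i).E ℚ, 2 • Q = 0 → Q = 0) ∧ (y i).Undiv (m i) ∧
            (y i).GrossZagier ∧ (y i).Parity ∧ Kolyvagin (y i)) →
          Lots {p | ∀ i, (y i).Good p} (∑ i, (j i + m i)) (fun D => ∀ i,
            (x i).Ord2 D ((x i).least D) ∧ (y i).OrdE D ((x i).least D) ∧
              Module.finrank ℤ (twist (x i).E D) = (x i).least D)) := by
  classical
  obtain ⟨v, hv⟩ := Hgp.exists_dyadic
  have hv2 : 0 < v 2 := v.pos two_ne_zero
  refine ⟨fun i D hD => exist (x i) (hx i) D hD, fun i D hD p _ α h =>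
    ⟨existp (x i) (hx i) D hD p α h, fun h0 => zero_all (x i) (hx i) D hD h0 p α h⟩,
    fun i r hr => ?_, fun r j hj => ?_⟩
  · -- an exponent
    obtain ⟨L, hL, ho⟩ := hr
    have hne : PowerSeries.coeff r L ≠ 0 := by
      have h0 : L ≠ 0 := by
        rintro rfl
        rw [PowerSeries.order_zero] at ho
        exact ENat.natCast_ne_top _ ho.symm
      have h1 := PowerSeries.coeff_order h0
      rwa [ho, ENat.toNat_natCast] at h1
    obtain ⟨n, hn⟩ := FiniteMultiplicity.of_not_isUnit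
      Pool.Agent.Lib.MP_72b84e_nt.Two.not_unit_two hne
    refine ⟨n, fun L' hL' => ⟨r, le_rfl, ?_⟩⟩
    rw [Pool.Agent.Lib.MP_72b84e_nt.Two.isL_unique Pool.Agent.Lib.MP_72b84e_nt.Two.omg
      (hx i).root.1 hL' hL]
    exact hn
  have hsys := fun (A : Set ℕ) (hA : ∀ p ∈ A, ∀ i, (x i).Good p) (i : ι) =>
    sys2 (x i) (hx i) (r i) (j i) (hj i) A (fun p hp => hA p hp i) hv
  have hA0 : ∀ p ∈ {p | ∀ i, (x i).Good p}, p.Prime := by
    intro p hp
    obtain ⟨i0⟩ := ‹Nonempty ι›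
    exact (hp i0).1
  have hall : ∀ R : ℕ → Prop, (∀ S : Finset ℕ, (S : Set ℕ) ⊆ {p | ∀ i, (x i).Good p} →
      (∀ i, ∃ k ≤ r i, (x i).Ord2 (∏ p ∈ S, p) k) → R (∏ p ∈ S, p)) →
      Lots {p | ∀ i, (x i).Good p} (∑ i, j i) R := by
    intro R hR
    have h := hsys {p | ∀ i, (x i).Good p} (fun p hp => hp)
    choose ℓ h0 h1 h2 using h
    refine lots_of_lip (ℓ := fun S => ∏ i, ℓ i S) hv hA0 ?_
      (Hgp.hasLip_prod hv Finset.univ ℓ (fun i _ => h1 i)) ?_
    · rw [← Finset.prod_pow_eq_pow_sum]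
      exact Finset.prod_le_prod (fun i _ => pow_nonneg hv2.le _) fun i _ => h0 i
    · intro S hS hne
      exact hR S hS fun i =>
        h2 i S hS ((Finset.prod_ne_zero_iff.1 hne) i (Finset.mem_univ i))
  have hgd : ∀ S : Finset ℕ, (S : Set ℕ) ⊆ {p | ∀ i, (x i).Good p} → ∀ i,
      Squarefree (∏ p ∈ S, p) ∧ ∀ p ∈ (∏ p ∈ S, p).primeFactors, (x i).Good p := by
    intro S hS i
    obtain ⟨hsf, hpf⟩ := prod_facts fun p hp => hA0 p (hS hp)
    exact ⟨hsf, by rw [hpf]; exact fun p hp => hS hp i⟩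
  refine ⟨hall _ fun S hS h i => ?_, fun hpar => ⟨hall _ fun S hS h i => ?_, ?_⟩⟩
  · obtain ⟨k, hk, ho⟩ := h i
    obtain ⟨hsf, hg⟩ := hgd S hS i
    exact ⟨k, hk, ho, fun hA => parity (x i) (hx i) hA hsf hg ho, fun hK => hK _ hsf hg k ho⟩
  · obtain ⟨k, hk, ho⟩ := h i
    obtain ⟨hsf, hg⟩ := hgd S hS i
    have h3 := parity (x i) (hx i) (hpar i).2 hsf hg ho
    have h4 : k = (x i).least (∏ p ∈ S, p) := least_of (hk.trans (hpar i).1) h3
    rw [← h4]
    exact ⟨ho, fun hK => hK _ hsf hg k ho⟩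
  · intro y m hy
    set A : Set ℕ := {p | ∀ i, (y i).Good p} with hA
    have hAp : ∀ p ∈ A, p.Prime := by
      intro p hp
      obtain ⟨i0⟩ := ‹Nonempty ι›
      exact (hp i0).1
    have hAx : ∀ p ∈ A, ∀ i, (x i).Good p := by
      intro p hp i
      obtain ⟨h1, h2, h3, h4⟩ := hp i
      refine ⟨h1, h2, fun hd => h3 ?_, ?_⟩
      · rw [(hy i).2.1]
        exact (Int.natCast_dvd_natCast.2 hd).mul_right _
      · rw [← (hy i).1]
        exact h4
    have hx2 := hsys A hAx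
    choose ℓ h0 h1 h2 using hx2
    have hy2 := fun i => (sys (y i) (hy i).2.2.2.1 (hy i).2.2.2.2.1 A (fun p hp => hp i)).2 (m i)
      (hy i).2.2.2.2.2.1 v hv
    choose ℓ' h0' h1' h2' using hy2
    refine lots_of_lip (ℓ := fun S => ∏ i, (ℓ i S * ℓ' i S)) hv hAp ?_
      (Hgp.hasLip_prod hv Finset.univ (fun i S => ℓ i S * ℓ' i S)
        (fun i _ => Hgp.hasLip_mul hv (h1 i) (h2' i))) ?_
    · rw [← Finset.prod_pow_eq_pow_sum]
      refine Finset.prod_le_prod (fun i _ => pow_nonneg hv2.le _) fun i _ => ?_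
      rw [pow_add]
      exact mul_le_mul (h0 i) (h0' i) (pow_nonneg hv2.le _)
        ((pow_nonneg hv2.le _).trans (h0 i))
    · intro S hS hne i
      have hi := (Finset.prod_ne_zero_iff.1 hne) i (Finset.mem_univ i)
      obtain ⟨hi1, hi2⟩ := mul_ne_zero_iff.1 hi
      obtain ⟨k, hk, ho⟩ := h2 i S hS hi1
      obtain ⟨hsf, hg⟩ := hgd S (fun p hp => hAx p (hS hp)) i
      have hpf := (prod_facts fun p hp => hAp p (hS hp)).2
      have h3 := parity (x i) (hx i) (hpar i).2 hsf hg ho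
      have h8 : k = (x i).least (∏ p ∈ S, p) := least_of (hk.trans (hpar i).1) h3
      obtain ⟨a, b, ha, -, hab⟩ := (hy i).2.2.2.2.2.2.1 S (fun p hp => hS hp i) (h1' i S hS hi2)
      have h5 := (hy i).2.2.2.2.2.2.2.1 S (fun p hp => hS hp i) a ha
      rw [(hy i).2.1, (hy i).2.2.1] at h5
      have h7 : a = (x i).least (∏ p ∈ S, p) := least_of (by omega) h5
      rw [← h7]
      refine ⟨?_, ha, ?_⟩
      · rw [h7, ← h8]
        exact ho
      · rw [← (hy i).1]
        exact (hy i).2.2.2.2.2.2.2.2 _ hsf (by rw [hpf]; exact fun p hp => hS hp i) a (by omega) ha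

end

end Pool.Agent.Results.MP_72b84e_nt.TwoAdicOrders
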